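import Mathlib

/-!
# Circumference-weighted bound on clique counts, edge version

For a clique `T` with `t ≥ 3` vertices of a finite graph `G` let `γ(T)` be the largest length of a
cycle of `G` through all vertices of `T`. Then
`∑_T binom(γ(T), 2) / binom(γ(T), t) ≤ e(G)`, with equality if and only if every block of `G` is an
isolated vertex or a complete graph on at least `t` vertices.

Proof. For `v ∈ T` a path in the neighbourhood `N(v)` which contains `T \ {v}` and has `π` vertices
gives a cycle of length `π + 1` through `T`. So the sum is at most half the sum over the vertices `v`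
of the sums of `π(S) / binom(π(S), t - 1)` over the cliques `S` with `t - 1` vertices in `N(v)`,
where `π(S)` is the largest number of vertices of a path in `N(v)` which contains `S`. The latter sum
is at most `|N(v)|`, with equality only if `N(v)` spans a disjoint union of complete graphs on at
least `t - 1` vertices (`path_bound`, a localised form of the theorem of Erdős and Gallai on paths,
proved by deletion of an end vertex of a longest path or of the vertices of a longest path).
-/

set_option autoImplicit false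
set_option linter.unusedSectionVars false

namespace Pool.Agent.Results.MP_18736b_co.CircumferenceWeights

open Finset

section paths

variable {V : Type*} [DecidableEq V] (G : SimpleGraph V)

/-- lists of distinct vertices of `W`, consecutive ones adjacent: the paths inside `W` -/
def IsP (W : Finset V) (L : List V) : Prop := L.Nodup ∧ L.IsChain G.Adj ∧ ∀ x ∈ L, x ∈ W

variable {G}

lemma IsP.length_le {W : Finset V} {L : List V} (h : IsP G W L) : L.length ≤ W.card := by
  rw [← List.toFinset_card_of_nodup h.1]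
  exact Finset.card_le_card fun x hx => h.2.2 x (List.mem_toFinset.mp hx)

lemma IsP.mono {W W' : Finset V} {L : List V} (h : IsP G W L) (hW : W ⊆ W') : IsP G W' L :=
  ⟨h.1, h.2.1, fun x hx => hW (h.2.2 x hx)⟩

lemma IsP.reverse {W : Finset V} {L : List V} (h : IsP G W L) : IsP G W L.reverse := by
  refine ⟨List.nodup_reverse.mpr h.1, ?_, fun x hx => h.2.2 x (List.mem_reverse.mp hx)⟩
  rw [List.isChain_reverse]
  exact h.2.1.imp fun a b hab => hab.symm

variable (G)

/-- the largest number of vertices of a path inside `W` which contains `S` -/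
noncomputable def pth (W S : Finset V) : ℕ :=
  sSup {k | ∃ L, IsP G W L ∧ (∀ x ∈ S, x ∈ L) ∧ L.length = k}

variable {G}

lemma pth_bdd (W S : Finset V) :
    BddAbove {k | ∃ L, IsP G W L ∧ (∀ x ∈ S, x ∈ L) ∧ L.length = k} := by
  refine ⟨W.card, ?_⟩
  rintro k ⟨L, hL, _, rfl⟩
  exact hL.length_le

lemma le_pth {W S : Finset V} {L : List V} (hL : IsP G W L) (hS : ∀ x ∈ S, x ∈ L) :
    L.length ≤ pth G W S :=
  le_csSup (pth_bdd W S) ⟨L, hL, hS, rfl⟩

lemma pth_spec {W S : Finset V} {L : List V} (hL : IsP G W L) (hS : ∀ x ∈ S, x ∈ L) :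
    ∃ L', IsP G W L' ∧ (∀ x ∈ S, x ∈ L') ∧ L'.length = pth G W S := by
  have h : {k | ∃ L, IsP G W L ∧ (∀ x ∈ S, x ∈ L) ∧ L.length = k}.Nonempty :=
    ⟨L.length, L, hL, hS, rfl⟩
  exact Nat.sSup_mem h (pth_bdd W S)

lemma clique_chain {S : Finset V} (hS : G.IsClique (S : Set V)) : IsP G S S.toList := by
  refine ⟨S.nodup_toList, ?_, fun x hx => by simpa using hx⟩
  have h1 : S.toList.Pairwise G.Adj := by
    refine List.Nodup.pairwise_of_forall_ne S.nodup_toList ?_
    intro a ha b hb hab
    exact hS (by simpa using ha) (by simpa using hb) hab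
  exact h1.isChain

lemma card_le_pth {W S : Finset V} (hS : G.IsClique (S : Set V)) (hSW : S ⊆ W) :
    S.card ≤ pth G W S := by
  have := le_pth ((clique_chain hS).mono hSW) (S := S) (fun x hx => by simpa using hx)
  simpa using this

lemma pth_mono {W W' S : Finset V} (hS : G.IsClique (S : Set V)) (hSW : S ⊆ W) (hW : W ⊆ W') :
    pth G W S ≤ pth G W' S := by
  obtain ⟨L, hL, hSL, hk⟩ := pth_spec ((clique_chain hS).mono hSW) (S := S)
    (fun x hx => by simpa using hx)
  rw [← hk]
  exact le_pth (hL.mono hW) hSL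

/-- a closed path all of whose vertices but one... can be extended -/
lemma closed_extend {W : Finset V} {M : List V} (hM : IsP G W M)
    (hcl : ∀ x ∈ M.getLast?, ∀ y ∈ M.head?, G.Adj x y) {x y : V} (hx : x ∈ M) (hy : y ∈ W)
    (hyM : y ∉ M) (hxy : G.Adj x y) : ∃ L, IsP G W L ∧ L.length = M.length + 1 := by
  obtain ⟨M1, M2, rfl⟩ := List.append_of_mem hx
  refine ⟨y :: ((x :: M2) ++ M1), ⟨?_, ?_, ?_⟩, ?_⟩
  · rw [List.nodup_cons]
    refine ⟨?_, ?_⟩
    · intro h
      apply hyM
      simp only [List.mem_append, List.mem_cons] at h ⊢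
      tauto
    · exact (List.perm_append_comm.nodup_iff).mp hM.1
  · have hc := List.isChain_append.mp hM.2.1
    rw [List.cons_append, List.isChain_cons_cons]
    refine ⟨hxy.symm, ?_⟩
    rw [← List.cons_append]
    refine List.isChain_append.mpr ⟨hc.2.1, hc.1, ?_⟩
    intro a ha b hb
    refine hcl a ?_ b ?_
    · rw [List.getLast?_append_of_ne_nil _ (by simp)]
      exact ha
    · cases M1 with
      | nil => simp at hb
      | cons c M1 => simpa using hb
  · intro z hz
    simp only [List.mem_append, List.mem_cons] at hz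
    rcases hz with rfl | (rfl | hz) | hz
    · exact hy
    · exact hM.2.2 _ (by simp)
    · exact hM.2.2 _ (by simp [hz])
    · exact hM.2.2 _ (by simp [hz])
  · simp only [List.length_cons, List.length_append]
    omega

/-- the rotation of a path -/
lemma rotate {W : Finset V} {L1 L2 : List V} (hL : IsP G W (L1 ++ L2))
    (h1 : ∀ x ∈ L1.head?, ∀ y ∈ L2.head?, G.Adj x y)
    (h2 : ∀ x ∈ L1.getLast?, ∀ y ∈ L2.getLast?, G.Adj x y) (hn1 : L1 ≠ []) (hn2 : L2 ≠ []) :
    IsP G W (L1 ++ L2.reverse) ∧
      ∀ x ∈ (L1 ++ L2.reverse).getLast?, ∀ y ∈ (L1 ++ L2.reverse).head?, G.Adj x y := by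
  have hc := List.isChain_append.mp hL.2.1
  refine ⟨⟨?_, ?_, ?_⟩, ?_⟩
  · exact ((List.Perm.append_left L1 (List.reverse_perm L2)).nodup_iff).mpr hL.1
  · refine List.isChain_append.mpr ⟨hc.1, ?_, ?_⟩
    · rw [List.isChain_reverse]
      exact hc.2.1.imp fun a b hab => hab.symm
    · intro x hx y hy
      rw [List.head?_reverse] at hy
      exact h2 x hx y hy
  · intro x hx
    apply hL.2.2
    simpa using hx
  · intro x hx y hy
    rw [List.getLast?_append_of_ne_nil _ (by simpa using hn2), List.getLast?_reverse] at hx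
    rw [List.head?_append_of_ne_nil _ hn1] at hy
    exact (h1 y hy x hx).symm


lemma mem_of_longest {W : Finset V} {L : List V} (hL : IsP G W L)
    (hmax : ∀ L', IsP G W L' → L'.length ≤ L.length) {a y : V} (ha : a ∈ L.head?) (hy : y ∈ W)
    (hay : G.Adj a y) : y ∈ L := by
  by_contra hyL
  have h : IsP G W (y :: L) := by
    refine ⟨List.nodup_cons.mpr ⟨hyL, hL.1⟩, ?_, ?_⟩
    · refine hL.2.1.cons ?_
      intro z hz
      rw [Option.mem_def] at ha hz
      rw [ha] at hz
      cases hz
      exact hay.symm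
    · intro x hx
      rcases List.mem_cons.mp hx with rfl | hx
      · exact hy
      · exact hL.2.2 x hx
  have := hmax _ h
  simp at this

open Classical in
lemma end_degrees {W : Finset V} {L : List V} (hL : IsP G W L)
    (hmax : ∀ L', IsP G W L' → L'.length ≤ L.length)
    (hout : ∃ x ∈ L, ∃ y ∈ W, y ∉ L ∧ G.Adj x y) {a b : V} (ha : a ∈ L.head?)
    (hb : b ∈ L.getLast?) :
    (W.filter fun y => G.Adj a y).card + (W.filter fun y => G.Adj b y).card + 1 ≤ L.length := by
  set k := L.length with hk
  have hk0 : 0 < k := by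
    rw [hk, List.length_pos_iff]
    rintro rfl
    simp at ha
  have ha0 : L[0]'hk0 = a := by
    have : L.head? = some (L[0]'hk0) := by
      rw [List.head?_eq_getElem?, List.getElem?_eq_getElem hk0]
    rw [Option.mem_def, this] at ha
    exact Option.some.inj ha
  have hb0 : L[k - 1]'(by omega) = b := by
    have : L.getLast? = some (L[k - 1]'(by omega)) := by
      rw [List.getLast?_eq_getElem?, List.getElem?_eq_getElem]
    rw [Option.mem_def, this] at hb
    exact Option.some.inj hb
  set A := (range (k - 1)).filter fun i => G.Adj a (L.getD (i + 1) a) with hA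
  set B := (range (k - 1)).filter fun i => G.Adj b (L.getD i a) with hB
  have h1 : (W.filter fun y => G.Adj a y) ⊆ A.image fun i => L.getD (i + 1) a := by
    intro y hy
    obtain ⟨hyW, hay⟩ := mem_filter.mp hy
    have hyL := mem_of_longest hL hmax ha hyW hay
    obtain ⟨j, hj, rfl⟩ := List.mem_iff_getElem.mp hyL
    have hj0 : j ≠ 0 := by
      rintro rfl
      rw [ha0] at hay
      exact G.irrefl hay
    obtain ⟨i, rfl⟩ : ∃ i, j = i + 1 := ⟨j - 1, by omega⟩
    refine mem_image.mpr ⟨i, mem_filter.mpr ⟨mem_range.mpr (by omega), ?_⟩, ?_⟩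
    · rw [List.getD_eq_getElem _ _ hj]
      exact hay
    · rw [List.getD_eq_getElem _ _ hj]
  have h2 : (W.filter fun y => G.Adj b y) ⊆ B.image fun i => L.getD i a := by
    intro y hy
    obtain ⟨hyW, hby⟩ := mem_filter.mp hy
    have hyL : y ∈ L := by
      have := mem_of_longest hL.reverse (fun L' hL' => by simpa using hmax L' hL')
        (a := b) (y := y) (by rw [List.head?_reverse]; exact hb) hyW hby
      simpa using this
    obtain ⟨j, hj, rfl⟩ := List.mem_iff_getElem.mp hyL
    have hj0 : j ≠ k - 1 := by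
      rintro rfl
      rw [hb0] at hby
      exact G.irrefl hby
    refine mem_image.mpr ⟨j, mem_filter.mpr ⟨mem_range.mpr (by omega), ?_⟩, ?_⟩
    · rw [List.getD_eq_getElem _ _ hj]
      exact hby
    · rw [List.getD_eq_getElem _ _ hj]
  have h3 : Disjoint A B := by
    rw [Finset.disjoint_left]
    intro i hiA hiB
    obtain ⟨hi, hai⟩ := mem_filter.mp hiA
    obtain ⟨_, hbi⟩ := mem_filter.mp hiB
    have hi' := mem_range.mp hi
    rw [List.getD_eq_getElem _ _ (by omega)] at hai hbi
    have hsplit : L = L.take (i + 1) ++ L.drop (i + 1) := (List.take_append_drop _ _).symm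
    have hL' : IsP G W (L.take (i + 1) ++ L.drop (i + 1)) := by rw [← hsplit]; exact hL
    have hn1 : L.take (i + 1) ≠ [] := by
      intro h
      have := congrArg List.length h
      rw [List.length_take] at this
      simp only [List.length_nil] at this
      omega
    have hn2 : L.drop (i + 1) ≠ [] := by
      intro h
      have := congrArg List.length h
      rw [List.length_drop] at this
      simp only [List.length_nil] at this
      omega
    have hh1 : (L.take (i + 1)).head? = some a := by
      rw [List.head?_eq_getElem?, List.getElem?_take_of_lt (by omega),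
        List.getElem?_eq_getElem hk0, ha0]
    have hh2 : (L.drop (i + 1)).head? = some (L[i + 1]'(by omega)) := by
      rw [List.head?_drop, List.getElem?_eq_getElem]
    have hh3 : (L.take (i + 1)).getLast? = some (L[i]'(by omega)) := by
      rw [List.getLast?_eq_getElem?, List.length_take, List.getElem?_take_of_lt (by omega),
        show min (i + 1) L.length - 1 = i by omega, List.getElem?_eq_getElem]
    have hh4 : (L.drop (i + 1)).getLast? = some b := by
      rw [List.getLast?_eq_getElem?, List.length_drop, List.getElem?_drop,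
        show i + 1 + (L.length - (i + 1) - 1) = k - 1 by omega, List.getElem?_eq_getElem (by omega),
        hb0]
    obtain ⟨hM, hcl⟩ := rotate hL' (by
      intro x hx y hy
      rw [hh1] at hx; rw [hh2] at hy
      cases hx; cases hy
      exact hai) (by
      intro x hx y hy
      rw [hh3] at hx; rw [hh4] at hy
      cases hx; cases hy
      exact hbi.symm) hn1 hn2
    obtain ⟨x, hx, y, hy, hyL, hxy⟩ := hout
    have hmem : ∀ z, z ∈ L.take (i + 1) ++ (L.drop (i + 1)).reverse ↔ z ∈ L := by
      intro z
      have h : z ∈ L ↔ z ∈ L.take (i + 1) ++ L.drop (i + 1) := by rw [← hsplit]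
      rw [h]
      simp only [List.mem_append, List.mem_reverse]
    obtain ⟨L', hL1, hL2⟩ := closed_extend hM hcl ((hmem x).mpr hx) hy
      (fun h => hyL ((hmem y).mp h)) hxy
    have h5 := hmax L' hL1
    rw [hL2] at h5
    simp only [List.length_append, List.length_take, List.length_reverse, List.length_drop] at h5
    omega
  have h4 : A.card + B.card ≤ k - 1 := by
    rw [← Finset.card_union_of_disjoint h3]
    calc (A ∪ B).card ≤ (range (k - 1)).card :=
          Finset.card_le_card (Finset.union_subset (filter_subset _ _) (filter_subset _ _))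
      _ = k - 1 := card_range _
  have h5 := (Finset.card_le_card h1).trans Finset.card_image_le
  have h6 := (Finset.card_le_card h2).trans Finset.card_image_le
  omega


/-! ### binomial coefficients -/

lemma two_pow_choose (d j : ℕ) : 2 ^ j * d.choose j ≤ (2 * d).choose j := by
  induction j with
  | zero => simp
  | succ j ih =>
    have h1 := Nat.choose_succ_right_eq d j
    have h2 := Nat.choose_succ_right_eq (2 * d) j
    have h3 : (2 ^ (j + 1) * d.choose (j + 1)) * (j + 1) ≤ (2 * d).choose (j + 1) * (j + 1) := by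
      calc (2 ^ (j + 1) * d.choose (j + 1)) * (j + 1)
          = (2 ^ j * d.choose j) * (2 * (d - j)) := by
            rw [mul_assoc, h1, pow_succ]; ring
        _ ≤ (2 * d).choose j * (2 * d - j) := Nat.mul_le_mul ih (by omega)
        _ = (2 * d).choose (j + 1) * (j + 1) := h2.symm
    exact Nat.le_of_mul_le_mul_right h3 (by omega)

lemma choose_ineq {d n s : ℕ} (hs : 1 ≤ s) (h : 2 * d ≤ n) :
    s * d.choose (s - 1) ≤ n.choose (s - 1) := by
  obtain ⟨j, rfl⟩ : ∃ j, s = j + 1 := ⟨s - 1, by omega⟩
  rw [Nat.add_sub_cancel]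
  calc (j + 1) * d.choose j ≤ 2 ^ j * d.choose j :=
        Nat.mul_le_mul_right _ (Nat.lt_two_pow_self)
    _ ≤ (2 * d).choose j := two_pow_choose d j
    _ ≤ n.choose j := Nat.choose_le_choose j h

lemma choose_lt {a s : ℕ} (hs : 2 ≤ s) (ha : s ≤ a) :
    (a - 1).choose (s - 1) < a.choose (s - 1) := by
  obtain ⟨j, rfl⟩ : ∃ j, s = j + 2 := ⟨s - 2, by omega⟩
  obtain ⟨b, rfl⟩ : ∃ b, a = b + 1 := ⟨a - 1, by omega⟩
  rw [show j + 2 - 1 = j + 1 by omega, Nat.add_sub_cancel, Nat.choose_succ_succ']
  have : 0 < b.choose j := Nat.choose_pos (by omega)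
  omega

/-! ### the bound for paths -/

variable (G)

open Classical in
/-- the cliques with `s` vertices inside `W` -/
noncomputable def cls (s : ℕ) (W : Finset V) : Finset (Finset V) :=
  (W.powersetCard s).filter fun S => G.IsClique (S : Set V)

/-- the weight of a clique -/
noncomputable def wt (s : ℕ) (W S : Finset V) : ℝ := s / ((pth G W S - 1).choose (s - 1) : ℕ)

open Classical in
/-- the closed neighbourhood inside `W` -/
noncomputable def nb (W : Finset V) (x : V) : Finset V := W.filter fun y => y = x ∨ G.Adj x y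

variable {G}

lemma mem_cls {s : ℕ} {W S : Finset V} :
    S ∈ cls G s W ↔ S ⊆ W ∧ S.card = s ∧ G.IsClique (S : Set V) := by
  simp [cls, and_assoc]

lemma mem_nb {W : Finset V} {x y : V} : y ∈ nb G W x ↔ y ∈ W ∧ (y = x ∨ G.Adj x y) := by
  simp [nb]

lemma wt_nonneg (s : ℕ) (W S : Finset V) : 0 ≤ wt G s W S := by
  unfold wt; positivity

lemma wt_mono {s : ℕ} {W W' S : Finset V} (hs : 1 ≤ s) (hS : S ∈ cls G s W) (hW : W ⊆ W') :
    wt G s W' S ≤ wt G s W S := by
  obtain ⟨h1, h2, h3⟩ := mem_cls.mp hS
  have h4 := card_le_pth h3 h1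
  have h5 := pth_mono h3 h1 hW
  unfold wt
  have h6 : 0 < (pth G W S - 1).choose (s - 1) := Nat.choose_pos (by omega)
  refine div_le_div_of_nonneg_left (by positivity) (by exact_mod_cast h6) ?_
  exact_mod_cast Nat.choose_le_choose _ (by omega)

lemma chain_forward {W : Finset V} {p : V → Prop}
    (hp : ∀ y ∈ W, p y → ∀ z ∈ W, G.Adj y z → p z) :
    ∀ (L : List V) (a : V), (a :: L).IsChain G.Adj → (∀ x ∈ a :: L, x ∈ W) → p a →
      ∀ x ∈ a :: L, p x := by
  intro L
  induction L with
  | nil =>
    intro a _ _ ha x hx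
    rw [List.mem_singleton] at hx
    rw [hx]; exact ha
  | cons b L ih =>
    intro a hc hW ha x hx
    rw [List.isChain_cons_cons] at hc
    have hb : p b := hp a (hW a (by simp)) ha b (hW b (by simp)) hc.1
    rcases List.mem_cons.mp hx with rfl | hx
    · exact ha
    · exact ih b hc.2 (fun z hz => hW z (List.mem_cons_of_mem _ hz)) hb x hx

lemma chain_closed {W : Finset V} {p : V → Prop}
    (hp : ∀ y ∈ W, p y → ∀ z ∈ W, G.Adj y z → p z) {L : List V} (hL : IsP G W L) {a : V}
    (ha : a ∈ L) (hpa : p a) : ∀ x ∈ L, p x := by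
  obtain ⟨M1, M2, rfl⟩ := List.append_of_mem ha
  have hc := List.isChain_append.mp hL.2.1
  intro x hx
  have hx' : x ∈ M1 ∨ x ∈ a :: M2 := List.mem_append.mp hx
  rcases hx' with h | h
  · have hrev : (a :: M1.reverse).IsChain G.Adj := by
      refine List.IsChain.cons ?_ ?_
      · rw [List.isChain_reverse]
        exact hc.1.imp fun _ _ h => h.symm
      · intro y hy
        rw [List.head?_reverse] at hy
        exact (hc.2.2 y hy a (by simp)).symm
    refine chain_forward hp _ a hrev ?_ hpa x (by simp [h])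
    intro z hz
    apply hL.2.2
    simp only [List.mem_cons, List.mem_reverse] at hz
    simp only [List.mem_append, List.mem_cons]
    tauto
  · refine chain_forward hp _ a hc.2.1 ?_ hpa x h
    intro z hz
    exact hL.2.2 z (List.mem_append_right _ hz)

lemma nb_closed {W : Finset V} (hQ : ∀ x ∈ W, G.IsClique (nb G W x : Set V)) {v : V}
    (hv : v ∈ W) : ∀ y ∈ W, y ∈ nb G W v → ∀ z ∈ W, G.Adj y z → z ∈ nb G W v := by
  intro y hy hyv z hz hyz
  rw [mem_nb] at hyv ⊢
  refine ⟨hz, ?_⟩
  by_cases hzv : z = v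
  · exact Or.inl hzv
  · right
    have h1 : v ∈ nb G W y := by
      rw [mem_nb]
      refine ⟨hv, ?_⟩
      rcases hyv.2 with h | h
      · exact Or.inl h.symm
      · exact Or.inr h.symm
    have h2 : z ∈ nb G W y := by
      rw [mem_nb]
      exact ⟨hz, Or.inr hyz⟩
    exact hQ y hy (by exact_mod_cast h1) (by exact_mod_cast h2) (Ne.symm hzv)

lemma path_in_nb {W : Finset V} (hQ : ∀ x ∈ W, G.IsClique (nb G W x : Set V)) {v : V}
    (hv : v ∈ W) {L : List V} (hL : IsP G W L) (hvL : v ∈ L) : ∀ x ∈ L, x ∈ nb G W v := by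
  refine chain_closed (p := fun x => x ∈ nb G W v) (fun y hy hyv z hz hyz =>
    nb_closed hQ hv y hy hyv z hz hyz) hL hvL ?_
  rw [mem_nb]
  exact ⟨hv, Or.inl rfl⟩

theorem path_bound {s : ℕ} (hs : 2 ≤ s) : ∀ (n : ℕ) (W : Finset V), W.card = n →
    ∑ S ∈ cls G s W, wt G s W S ≤ W.card ∧
    (∑ S ∈ cls G s W, wt G s W S = W.card →
      ∀ x ∈ W, G.IsClique (nb G W x : Set V) ∧ s ≤ (nb G W x).card) := by
  classical
  intro n
  induction n using Nat.strong_induction_on with
  | _ n ih =>
  intro W hWn
  rcases W.eq_empty_or_nonempty with rfl | ⟨w, hw⟩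
  · have h : cls G s (∅ : Finset V) = ∅ := by
      ext S
      rw [mem_cls]
      simp only [subset_empty, notMem_empty, iff_false, not_and]
      rintro rfl h
      simp at h
      omega
    rw [h]
    simp
  -- a longest path
  obtain ⟨L, hL, h0L, hLk⟩ := pth_spec (G := G) (W := W) (S := ∅) (L := [w])
    ⟨List.nodup_singleton w, List.isChain_singleton w, fun x hx => by
      rw [List.mem_singleton] at hx; rw [hx]; exact hw⟩ (by simp)
  have hmax : ∀ L', IsP G W L' → L'.length ≤ L.length := by
    intro L' hL'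
    rw [hLk]
    exact le_pth hL' (by simp)
  have hLpos : 1 ≤ L.length := by
    have := hmax [w] ⟨List.nodup_singleton w, List.isChain_singleton w, fun x hx => by
      rw [List.mem_singleton] at hx; rw [hx]; exact hw⟩
    simpa using this
  have hpthle : ∀ S : Finset V, pth G W S ≤ L.length := by
    intro S
    by_cases hne : {k | ∃ L, IsP G W L ∧ (∀ x ∈ S, x ∈ L) ∧ L.length = k}.Nonempty
    · obtain ⟨L', hL', _, hk⟩ := Nat.sSup_mem hne (pth_bdd W S)
      have := hmax L' hL'
      rw [hk] at this
      exact this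
    · rw [Set.not_nonempty_iff_eq_empty] at hne
      unfold pth
      rw [hne]
      simp
  by_cases hout : ∃ x ∈ L, ∃ y ∈ W, y ∉ L ∧ G.Adj x y
  · -- delete an end vertex of small degree
    have hends : ∃ (L : List V) (a : V), IsP G W L ∧ (∀ L', IsP G W L' → L'.length ≤ L.length) ∧
        (∀ S : Finset V, pth G W S ≤ L.length) ∧ a ∈ L.head? ∧
        2 * (W.filter fun y => G.Adj a y).card ≤ L.length - 1 := by
      obtain ⟨a, ha⟩ : ∃ a, a ∈ L.head? := by
        cases L with
        | nil => simp at hLpos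
        | cons a L => exact ⟨a, rfl⟩
      obtain ⟨b, hb⟩ : ∃ b, b ∈ L.getLast? := by
        refine ⟨L.getLast (by rintro rfl; simp at hLpos), ?_⟩
        exact List.getLast?_eq_getLast_of_ne_nil _
      have h := end_degrees hL hmax hout ha hb
      by_cases hab : (W.filter fun y => G.Adj a y).card ≤ (W.filter fun y => G.Adj b y).card
      · exact ⟨L, a, hL, hmax, hpthle, ha, by omega⟩
      · exact ⟨L.reverse, b, hL.reverse, by simpa using hmax, by simpa using hpthle,
          by rw [List.head?_reverse]; exact hb, by rw [List.length_reverse]; omega⟩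
    clear hout hLpos hpthle hmax hLk hL h0L L
    obtain ⟨L, a, hL, hmax, hpthle, ha, hdeg⟩ := hends
    obtain ⟨L1, rfl⟩ : ∃ L1, L = a :: L1 := by
      cases L with
      | nil => simp at ha
      | cons c L1 =>
        simp only [List.head?_cons, Option.mem_def, Option.some.injEq] at ha
        exact ⟨L1, by rw [ha]⟩
    rw [List.length_cons, Nat.add_sub_cancel] at hdeg
    have haW : a ∈ W := hL.2.2 a (by simp)
    set N := W.filter fun y => G.Adj a y with hN
    have hNL : ∀ y ∈ N, y ∈ L1 := by
      intro y hy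
      obtain ⟨hyW, hay⟩ := mem_filter.mp hy
      have h1 := mem_of_longest hL hmax (a := a) rfl hyW hay
      rcases List.mem_cons.mp h1 with rfl | h1
      · exact absurd hay G.irrefl
      · exact h1
    set W' := W.erase a with hW'
    have hW'c : W'.card + 1 = W.card := Finset.card_erase_add_one haW
    obtain ⟨ih1, ih2⟩ := ih W'.card (by omega) W' rfl
    have hf2 : (cls G s W).filter (fun S => ¬ a ∈ S) = cls G s W' := by
      ext S
      rw [mem_filter, mem_cls, mem_cls, hW', Finset.subset_erase]
      tauto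
    have hsum : ∑ S ∈ cls G s W, wt G s W S
        = ∑ S ∈ (cls G s W).filter (fun S => a ∈ S), wt G s W S
          + ∑ S ∈ cls G s W', wt G s W S := by
      rw [← hf2, Finset.sum_filter_add_sum_filter_not]
    have hwU : ∀ S ∈ (cls G s W).filter (fun S => a ∈ S),
        wt G s W S = s / (L1.length.choose (s - 1) : ℕ) := by
      intro S hS
      obtain ⟨hS1, haS⟩ := mem_filter.mp hS
      obtain ⟨h1, h2, h3⟩ := mem_cls.mp hS1
      have h4 : pth G W S = L1.length + 1 := by
        refine le_antisymm (by simpa using hpthle S) ?_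
        have := le_pth hL (S := S) fun x hx => by
          by_cases hxa : x = a
          · rw [hxa]; simp
          · refine List.mem_cons_of_mem _ (hNL x (mem_filter.mpr ⟨h1 hx, ?_⟩))
            exact h3 (by exact_mod_cast haS) (by exact_mod_cast hx) (Ne.symm hxa)
        simpa using this
      unfold wt
      rw [h4, Nat.add_sub_cancel]
    have hcount : ((cls G s W).filter (fun S => a ∈ S)).card ≤ N.card.choose (s - 1) := by
      rw [← Finset.card_powersetCard]
      refine Finset.card_le_card_of_injOn (fun S => S.erase a) ?_ ?_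
      · intro S hS
        obtain ⟨hS1, haS⟩ := mem_filter.mp (mem_coe.mp hS)
        obtain ⟨h1, h2, h3⟩ := mem_cls.mp hS1
        rw [mem_coe, mem_powersetCard]
        refine ⟨?_, by rw [Finset.card_erase_of_mem haS, h2]⟩
        intro x hx
        obtain ⟨hxa, hxS⟩ := mem_erase.mp hx
        exact mem_filter.mpr ⟨h1 hxS, h3 (by exact_mod_cast haS) (by exact_mod_cast hxS)
          (Ne.symm hxa)⟩
      · intro S hS S' hS' h
        have h1 := (mem_filter.mp (mem_coe.mp hS)).2
        have h2 := (mem_filter.mp (mem_coe.mp hS')).2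
        have := congrArg (insert a) h
        simpa [Finset.insert_erase h1, Finset.insert_erase h2] using this
    have hsU : ∑ S ∈ (cls G s W).filter (fun S => a ∈ S), wt G s W S ≤ 1 := by
      rw [Finset.sum_congr rfl hwU, Finset.sum_const, nsmul_eq_mul, mul_div_assoc']
      refine div_le_one_of_le₀ ?_ (by positivity)
      have h1 : ((cls G s W).filter (fun S => a ∈ S)).card * s ≤ L1.length.choose (s - 1) := by
        calc ((cls G s W).filter (fun S => a ∈ S)).card * s
            ≤ N.card.choose (s - 1) * s := Nat.mul_le_mul_right _ hcount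
          _ = s * N.card.choose (s - 1) := mul_comm _ _
          _ ≤ L1.length.choose (s - 1) := choose_ineq (by omega) hdeg
      exact_mod_cast h1
    have hs2 : ∀ S ∈ cls G s W', wt G s W S ≤ wt G s W' S :=
      fun S hS => wt_mono (by omega) hS (Finset.erase_subset a W)
    have hs3 := Finset.sum_le_sum hs2
    have hWc : (W.card : ℝ) = 1 + W'.card := by
      rw [← hW'c]; push_cast; ring
    refine ⟨?_, ?_⟩
    · rw [hsum, hWc]
      linarith
    · intro heq
      exfalso
      rw [hsum, hWc] at heq
      have he1 : ∑ S ∈ (cls G s W).filter (fun S => a ∈ S), wt G s W S = 1 := by linarith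
      have he2 : ∑ S ∈ cls G s W', wt G s W' S = W'.card := by linarith
      have he3 : ∑ S ∈ cls G s W', wt G s W S = ∑ S ∈ cls G s W', wt G s W' S := by linarith
      have he4 := (Finset.sum_eq_sum_iff_of_le hs2).mp he3
      have hQ := ih2 he2
      have hQ1 : ∀ x ∈ W', G.IsClique (nb G W' x : Set V) := fun x hx => (hQ x hx).1
      -- a neighbour of `a`
      have hne : ((cls G s W).filter (fun S => a ∈ S)).Nonempty := by
        by_contra h
        rw [Finset.not_nonempty_iff_eq_empty] at h
        rw [h] at he1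
        simp at he1
      obtain ⟨S0, hS0⟩ := hne
      obtain ⟨hS01, haS0⟩ := mem_filter.mp hS0
      obtain ⟨h01, h02, h03⟩ := mem_cls.mp hS01
      obtain ⟨u, hu, hua⟩ := Finset.exists_mem_ne (by omega : 1 < S0.card) a
      have hau : G.Adj a u := h03 (by exact_mod_cast haS0) (by exact_mod_cast hu) (Ne.symm hua)
      have huL1 : u ∈ L1 := hNL u (mem_filter.mpr ⟨h01 hu, hau⟩)
      obtain ⟨v1, L2, rfl⟩ : ∃ v1 L2, L1 = v1 :: L2 := by
        cases L1 with
        | nil => simp at huL1
        | cons v1 L2 => exact ⟨v1, L2, rfl⟩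
      have hnd := List.nodup_cons.mp hL.1
      have hch := List.isChain_cons_cons.mp hL.2.1
      have hL1 : IsP G W' (v1 :: L2) := by
        refine ⟨hnd.2, hch.2, fun x hx => ?_⟩
        rw [hW', mem_erase]
        refine ⟨?_, hL.2.2 x (List.mem_cons_of_mem _ hx)⟩
        rintro rfl
        exact hnd.1 hx
      have hv1 : v1 ∈ W' := hL1.2.2 v1 (by simp)
      set K := nb G W' v1 with hK
      have hLK : ∀ x ∈ v1 :: L2, x ∈ K := path_in_nb hQ1 hv1 hL1 (by simp)
      have hKcl : G.IsClique (K : Set V) := hQ1 v1 hv1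
      have hKW' : K ⊆ W' := fun x hx => (mem_nb.mp hx).1
      have hv1K : v1 ∈ K := hLK v1 (by simp)
      have haK : a ∉ K := fun h => by
        have := hKW' h
        simp [hW'] at this
      -- the size of K
      have hK1 : (v1 :: L2).length ≤ K.card := by
        rw [← List.toFinset_card_of_nodup hL1.1]
        exact Finset.card_le_card fun x hx => hLK x (List.mem_toFinset.mp hx)
      have hK2 : K.card ≤ (v1 :: L2).length := by
        have hKe : G.IsClique ((K.erase v1 : Finset V) : Set V) :=
          hKcl.subset (by exact_mod_cast Finset.erase_subset v1 K)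
        have hp : IsP G W (a :: v1 :: (K.erase v1).toList) := by
          refine ⟨?_, ?_, ?_⟩
          · rw [List.nodup_cons, List.nodup_cons]
            refine ⟨?_, by simp, (K.erase v1).nodup_toList⟩
            simp only [List.mem_cons, mem_toList, mem_erase, not_or, not_and]
            exact ⟨fun h => haK (h ▸ hv1K), fun _ => haK⟩
          · rw [List.isChain_cons_cons]
            refine ⟨hch.1, ?_⟩
            refine (clique_chain hKe).2.1.cons ?_
            intro y hy
            have hy' : y ∈ K.erase v1 := by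
              have := List.mem_of_mem_head? hy
              simpa using this
            exact hKcl (by exact_mod_cast hv1K) (by exact_mod_cast (mem_erase.mp hy').2)
              (Ne.symm (mem_erase.mp hy').1)
          · intro x hx
            simp only [List.mem_cons, mem_toList, mem_erase] at hx
            rcases hx with rfl | rfl | hx
            · exact haW
            · exact Finset.erase_subset _ _ hv1
            · exact Finset.erase_subset _ _ (hKW' hx.2)
        have := hmax _ hp
        simp only [List.length_cons, length_toList] at this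
        rw [Finset.card_erase_of_mem hv1K] at this
        have h0 : 1 ≤ K.card := Finset.card_pos.mpr ⟨v1, hv1K⟩
        simp only [List.length_cons]
        omega
      have hKeq : K.card = (v1 :: L2).length := le_antisymm hK2 hK1
      have hKL : ∀ x ∈ K, x ∈ v1 :: L2 := by
        have h1 : (v1 :: L2).toFinset = K := by
          refine Finset.eq_of_subset_of_card_le (fun x hx => hLK x (List.mem_toFinset.mp hx)) ?_
          rw [List.toFinset_card_of_nodup hL1.1, hKeq]
        intro x hx
        rw [← h1] at hx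
        exact List.mem_toFinset.mp hx
      have hsK : s ≤ K.card := (hQ v1 hv1).2
      obtain ⟨S, hSK, hSc⟩ := Finset.exists_subset_card_eq hsK
      have hScl : G.IsClique (S : Set V) := hKcl.subset (by exact_mod_cast hSK)
      have hSmem : S ∈ cls G s W' := mem_cls.mpr ⟨hSK.trans hKW', hSc, hScl⟩
      have hw := he4 S hSmem
      -- the path numbers
      have hp1 : pth G W S = K.card + 1 := by
        refine le_antisymm (by rw [hKeq]; simpa using hpthle S) ?_
        rw [hKeq]
        have := le_pth hL (S := S) fun x hx => List.mem_cons_of_mem _ (hKL x (hSK hx))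
        simpa using this
      have hp2 : pth G W' S ≤ K.card := by
        obtain ⟨L', hL', hSL', hk'⟩ := pth_spec ((clique_chain hScl).mono (hSK.trans hKW'))
          (S := S) (fun x hx => by simpa using hx)
        rw [← hk', ← List.toFinset_card_of_nodup hL'.1]
        refine Finset.card_le_card fun x hx => ?_
        obtain ⟨z, hz⟩ : S.Nonempty := Finset.card_pos.mp (by omega)
        have hzK := hSK hz
        exact chain_closed (p := fun x => x ∈ K) (fun y hy hyv z hz hyz =>
          nb_closed hQ1 hv1 y hy hyv z hz hyz) hL' (hSL' z hz) hzK x (List.mem_toFinset.mp hx)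
      have hp3 : s ≤ pth G W' S := by
        have := card_le_pth hScl (hSK.trans hKW')
        rwa [hSc] at this
      unfold wt at hw
      rw [hp1, Nat.add_sub_cancel] at hw
      have hc1 : 0 < (pth G W' S - 1).choose (s - 1) := Nat.choose_pos (by omega)
      have hc2 : (pth G W' S - 1).choose (s - 1) < K.card.choose (s - 1) :=
        lt_of_le_of_lt (Nat.choose_le_choose _ (by omega)) (choose_lt hs hsK)
      have hc1' : (0 : ℝ) < ((pth G W' S - 1).choose (s - 1) : ℕ) := by exact_mod_cast hc1
      have hc2' : (((pth G W' S - 1).choose (s - 1) : ℕ) : ℝ) < (K.card.choose (s - 1) : ℕ) := by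
        exact_mod_cast hc2
      have hspos : (0 : ℝ) < s := by
        have : 0 < s := by omega
        exact_mod_cast this
      have := div_lt_div_of_pos_left hspos hc1' hc2'
      linarith
  · -- the vertices of the path form a union of components
    push Not at hout
    set U := L.toFinset with hU
    have hUc : U.card = L.length := List.toFinset_card_of_nodup hL.1
    have hUW : U ⊆ W := fun x hx => hL.2.2 x (List.mem_toFinset.mp hx)
    set W' := W \ U with hW'
    have hW'c : W'.card = W.card - L.length := by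
      rw [hW', Finset.card_sdiff_of_subset hUW, hUc]
    have hLW : L.length ≤ W.card := hL.length_le
    obtain ⟨ih1, ih2⟩ := ih W'.card (by omega) W' rfl
    have hclosed : ∀ x ∈ U, ∀ y ∈ W, G.Adj x y → y ∈ U := by
      intro x hx y hy hxy
      by_contra hyU
      exact hout x (List.mem_toFinset.mp hx) y hy (fun h => hyU (List.mem_toFinset.mpr h)) hxy
    have hf1 : (cls G s W).filter (fun S => S ⊆ U) = cls G s U := by
      ext S
      rw [mem_filter, mem_cls, mem_cls]
      constructor
      · rintro ⟨⟨_, h2, h3⟩, h4⟩; exact ⟨h4, h2, h3⟩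
      · rintro ⟨h4, h2, h3⟩; exact ⟨⟨h4.trans hUW, h2, h3⟩, h4⟩
    have hf2 : (cls G s W).filter (fun S => ¬ S ⊆ U) = cls G s W' := by
      ext S
      rw [mem_filter, mem_cls, mem_cls]
      constructor
      · rintro ⟨⟨h1, h2, h3⟩, h4⟩
        refine ⟨?_, h2, h3⟩
        rw [Finset.not_subset] at h4
        obtain ⟨x, hx, hxU⟩ := h4
        intro y hy
        rw [hW', mem_sdiff]
        refine ⟨h1 hy, fun hyU => ?_⟩
        by_cases hxy : y = x
        · exact hxU (hxy ▸ hyU)
        · exact hxU (hclosed y hyU x (h1 hx) (h3 (by exact_mod_cast hy) (by exact_mod_cast hx) hxy))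
      · rintro ⟨h1, h2, h3⟩
        refine ⟨⟨h1.trans sdiff_subset, h2, h3⟩, fun h => ?_⟩
        obtain ⟨x, hx⟩ : S.Nonempty := Finset.card_pos.mp (by omega)
        exact (mem_sdiff.mp (h1 hx)).2 (h hx)
    have hsum : ∑ S ∈ cls G s W, wt G s W S
        = ∑ S ∈ cls G s U, wt G s W S + ∑ S ∈ cls G s W', wt G s W S := by
      rw [← hf1, ← hf2, Finset.sum_filter_add_sum_filter_not]
    have hwU : ∀ S ∈ cls G s U, wt G s W S = s / ((L.length - 1).choose (s - 1) : ℕ) := by
      intro S hS
      obtain ⟨h1, h2, h3⟩ := mem_cls.mp hS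
      have h4 : pth G W S = L.length := le_antisymm (hpthle S)
        (le_pth hL fun x hx => List.mem_toFinset.mp (h1 hx))
      unfold wt
      rw [h4]
    have hsU : ∑ S ∈ cls G s U, wt G s W S
        = (cls G s U).card * (s / ((L.length - 1).choose (s - 1) : ℕ)) := by
      rw [Finset.sum_congr rfl hwU, Finset.sum_const, nsmul_eq_mul]
    have hcU : (cls G s U).card ≤ L.length.choose s := by
      rw [← hUc, ← Finset.card_powersetCard]
      exact Finset.card_le_card (filter_subset _ _)
    have hs2 : ∑ S ∈ cls G s W', wt G s W S ≤ ∑ S ∈ cls G s W', wt G s W' S :=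
      Finset.sum_le_sum fun S hS => wt_mono (by omega) hS sdiff_subset
    have hWc : (W.card : ℝ) = L.length + W'.card := by
      rw [hW'c, Nat.cast_sub hLW]; ring
    have hid : s * L.length.choose s = L.length * (L.length - 1).choose (s - 1) := by
      obtain ⟨k, hk⟩ : ∃ k, L.length = k + 1 := ⟨L.length - 1, by omega⟩
      obtain ⟨j, rfl⟩ : ∃ j, s = j + 1 := ⟨s - 1, by omega⟩
      rw [hk, Nat.add_sub_cancel, Nat.add_sub_cancel, Nat.add_one_mul_choose_eq, mul_comm]
    by_cases hks : s ≤ L.length
    · have hpos : 0 < (L.length - 1).choose (s - 1) := Nat.choose_pos (by omega)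
      have hposR : (0 : ℝ) < ((L.length - 1).choose (s - 1) : ℕ) := by exact_mod_cast hpos
      have hidR : (s : ℝ) * (L.length.choose s : ℕ)
          = L.length * ((L.length - 1).choose (s - 1) : ℕ) := by exact_mod_cast hid
      have hle : ((cls G s U).card : ℝ) * (s / ((L.length - 1).choose (s - 1) : ℕ)) ≤ L.length := by
        rw [mul_div_assoc', div_le_iff₀ hposR, ← hidR, mul_comm]
        exact mul_le_mul_of_nonneg_left (by exact_mod_cast hcU) (by positivity)
      refine ⟨?_, ?_⟩
      · rw [hsum, hsU, hWc]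
        linarith
      · intro heq
        rw [hsum, hsU, hWc] at heq
        have he1 : ((cls G s U).card : ℝ) * (s / ((L.length - 1).choose (s - 1) : ℕ)) = L.length := by
          linarith
        have he2 : ∑ S ∈ cls G s W', wt G s W' S = W'.card := by linarith
        have hQ' := ih2 he2
        have he3 : (cls G s U).card = L.length.choose s := by
          rw [mul_div_assoc', div_eq_iff hposR.ne', ← hidR, mul_comm] at he1
          have hs0 : (s : ℝ) ≠ 0 := by positivity
          exact_mod_cast mul_left_cancel₀ hs0 he1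
        have hall : cls G s U = U.powersetCard s := by
          refine Finset.eq_of_subset_of_card_le (filter_subset _ _) ?_
          rw [Finset.card_powersetCard, hUc, he3]
        have hUcl : G.IsClique (U : Set V) := by
          intro x hx y hy hxy
          obtain ⟨S, hS1, hS2, hS3⟩ := Finset.exists_subsuperset_card_eq (n := s)
            (show ({x, y} : Finset V) ⊆ U by
              intro z hz
              simp only [mem_insert, mem_singleton] at hz
              rcases hz with rfl | rfl
              · exact_mod_cast hx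
              · exact_mod_cast hy) (by rw [Finset.card_pair hxy]; exact hs) (by omega)
          have hS : S ∈ cls G s U := by
            rw [hall, mem_powersetCard]
            exact ⟨hS2, hS3⟩
          exact (mem_cls.mp hS).2.2 (by exact_mod_cast hS1 (by simp))
            (by exact_mod_cast hS1 (by simp)) hxy
        intro x hx
        by_cases hxU : x ∈ U
        · have hnb : nb G W x = U := by
            ext y
            rw [mem_nb]
            constructor
            · rintro ⟨hy, rfl | h⟩
              · exact hxU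
              · exact hclosed x hxU y hy h
            · intro hy
              refine ⟨hUW hy, ?_⟩
              by_cases hyx : y = x
              · exact Or.inl hyx
              · exact Or.inr (hUcl (by exact_mod_cast hxU) (by exact_mod_cast hy) (Ne.symm hyx))
          rw [hnb, hUc]
          exact ⟨hUcl, hks⟩
        · have hxW' : x ∈ W' := mem_sdiff.mpr ⟨hx, hxU⟩
          have hnb : nb G W x = nb G W' x := by
            ext y
            rw [mem_nb, mem_nb, hW', mem_sdiff]
            constructor
            · rintro ⟨hy, h⟩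
              refine ⟨⟨hy, fun hyU => ?_⟩, h⟩
              rcases h with rfl | h
              · exact hxU hyU
              · exact hxU (hclosed y hyU x hx h.symm)
            · rintro ⟨⟨hy, _⟩, h⟩
              exact ⟨hy, h⟩
          rw [hnb]
          exact hQ' x hxW'
    · have hz : (cls G s U).card = 0 := by
        have : L.length.choose s = 0 := Nat.choose_eq_zero_of_lt (by omega)
        omega
      have hL1 : (1 : ℝ) ≤ L.length := by exact_mod_cast hLpos
      refine ⟨?_, ?_⟩
      · rw [hsum, hsU, hWc, hz]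
        simp only [Nat.cast_zero, zero_mul]
        linarith
      · intro heq
        exfalso
        rw [hsum, hsU, hWc, hz] at heq
        simp only [Nat.cast_zero, zero_mul] at heq
        linarith

end paths


/-! ### cycles -/

/-- `γ_G(T)`: the largest `k` such that some copy of the cycle `C_k` in `G` contains all vertices
of `T` -/
noncomputable def circ {V : Type*} (G : SimpleGraph V) (T : Finset V) : ℕ :=
  sSup {k : ℕ | 3 ≤ k ∧ ∃ f : SimpleGraph.cycleGraph k →g G,
    Function.Injective f ∧ ∀ x ∈ T, ∃ i, f i = x}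

section cycles

variable {V : Type*} [Fintype V] [DecidableEq V] {G : SimpleGraph V}

lemma circ_bdd (T : Finset V) : BddAbove {k : ℕ | 3 ≤ k ∧
    ∃ f : SimpleGraph.cycleGraph k →g G, Function.Injective f ∧ ∀ x ∈ T, ∃ i, f i = x} := by
  refine ⟨Fintype.card V, ?_⟩
  rintro k ⟨_, f, hf, _⟩
  simpa using Fintype.card_le_of_injective f hf

lemma le_circ_of_list {T : Finset V} {L : List V} (hnd : L.Nodup) (hch : L.IsChain G.Adj)
    (h3 : 3 ≤ L.length) (hcl : ∀ x ∈ L.getLast?, ∀ y ∈ L.head?, G.Adj x y)
    (hT : ∀ x ∈ T, x ∈ L) : L.length ≤ circ G T := by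
  refine le_csSup (circ_bdd T) ⟨h3, ?_⟩
  obtain ⟨n, hn⟩ : ∃ n, L.length = n + 2 := ⟨L.length - 2, by omega⟩
  have hstep : ∀ v w : Fin L.length, (w.val = v.val + 1 ∨ (v.val = L.length - 1 ∧ w.val = 0)) →
      G.Adj (L.get v) (L.get w) := by
    intro v w h
    rcases h with h | ⟨h1, h2⟩
    · have h3 := hch.getElem v.val (by omega)
      simp only [List.get_eq_getElem, h]
      exact h3
    · refine hcl _ ?_ _ ?_
      · rw [List.getLast?_eq_getElem?, Option.mem_def, List.getElem?_eq_some_iff]
        refine ⟨by omega, ?_⟩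
        simp only [List.get_eq_getElem, h1]
      · rw [List.head?_eq_getElem?, Option.mem_def, List.getElem?_eq_some_iff]
        refine ⟨by omega, ?_⟩
        simp only [List.get_eq_getElem, h2]
  have key : ∀ v w : Fin L.length, (w - v).val = 1 → G.Adj (L.get v) (L.get w) := by
    intro v w h
    apply hstep
    rw [Fin.sub_def] at h
    simp only at h
    have hv := v.isLt
    have hw := w.isLt
    by_cases hvw : v.val ≤ w.val
    · have h4 : L.length - v.val + w.val = (w.val - v.val) + L.length := by omega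
      rw [h4, Nat.add_mod_right, Nat.mod_eq_of_lt (by omega)] at h
      left; omega
    · rw [Nat.mod_eq_of_lt (by omega)] at h
      right; omega
  refine ⟨⟨fun i => L.get i, ?_⟩, List.nodup_iff_injective_get.mp hnd, ?_⟩
  · intro v w hvw
    rw [SimpleGraph.cycleGraph_adj'] at hvw
    rcases hvw with h | h
    · exact (key w v h).symm
    · exact key v w h
  · intro x hx
    obtain ⟨i, hi, hxi⟩ := List.mem_iff_getElem.mp (hT x hx)
    exact ⟨⟨i, hi⟩, hxi⟩

lemma clique_closed {S : Finset V} (hS : G.IsClique (S : Set V)) (h2 : 2 ≤ S.card) :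
    ∀ x ∈ S.toList.getLast?, ∀ y ∈ S.toList.head?, G.Adj x y := by
  intro x hx y hy
  have hx' : x ∈ S := by simpa using List.mem_of_getLast? hx
  have hy' : y ∈ S := by simpa using List.mem_of_mem_head? hy
  refine hS (by exact_mod_cast hx') (by exact_mod_cast hy') ?_
  rintro rfl
  have hl : S.toList.length = S.card := Finset.length_toList S
  have h1 : S.toList[S.toList.length - 1]'(by omega) = x := by
    rw [List.getLast?_eq_getElem?, Option.mem_def, List.getElem?_eq_some_iff] at hx
    exact hx.2
  have h0 : S.toList[0]'(by omega) = x := by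
    rw [List.head?_eq_getElem?, Option.mem_def, List.getElem?_eq_some_iff] at hy
    exact hy.2
  have := (List.Nodup.getElem_inj_iff S.nodup_toList).mp (h1.trans h0.symm)
  omega

lemma clique_le_circ {S T : Finset V} (hS : G.IsClique (S : Set V)) (hTS : T ⊆ S)
    (h3 : 3 ≤ S.card) : S.card ≤ circ G T := by
  have h := le_circ_of_list (G := G) (T := T) S.nodup_toList (clique_chain hS).2.1 (by simpa using h3)
    (clique_closed hS (by omega)) (fun x hx => by simpa using hTS hx)
  simpa using h

lemma circ_spec {T : Finset V} (h3 : 3 ≤ circ G T) :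
    ∃ f : SimpleGraph.cycleGraph (circ G T) →g G, Function.Injective f ∧ ∀ x ∈ T, ∃ i, f i = x := by
  have hne : {k : ℕ | 3 ≤ k ∧ ∃ f : SimpleGraph.cycleGraph k →g G,
      Function.Injective f ∧ ∀ x ∈ T, ∃ i, f i = x}.Nonempty := by
    by_contra h
    rw [Set.not_nonempty_iff_eq_empty] at h
    unfold circ at h3
    rw [h] at h3
    simp at h3
  exact (Nat.sSup_mem hne (circ_bdd T)).2

end cycles

/-! ### blocks -/

/-- The vertex set `B` spans a nonempty connected graph without cut vertex. -/
def NoCut {V : Type*} (G : SimpleGraph V) (B : Set V) : Prop :=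
  (G.induce B).Connected ∧ ∀ x ∈ B, (G.induce (B \ {x})).Preconnected

/-- `B` is the vertex set of a block of `G`: a maximal set which spans a connected graph without
cut vertex. -/
def IsBlock {V : Type*} (G : SimpleGraph V) (B : Set V) : Prop := Maximal (NoCut G) B

section blocks

variable {V : Type*} [Fintype V] [DecidableEq V] {G : SimpleGraph V}

lemma preconnected_of_clique {B : Set V} (hB : G.IsClique B) : (G.induce B).Preconnected := by
  intro x y
  by_cases hxy : x = y
  · rw [hxy]
  · exact SimpleGraph.Adj.reachable (hB x.2 y.2 fun h => hxy (Subtype.ext h))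

lemma noCut_of_clique {B : Set V} (hB : G.IsClique B) (hne : B.Nonempty) : NoCut G B := by
  have : Nonempty B := hne.to_subtype
  exact ⟨⟨preconnected_of_clique hB⟩, fun x _ => preconnected_of_clique (hB.subset sdiff_le)⟩

lemma noCut_union {A B : Set V} (hA : NoCut G A) (hB : NoCut G B) {u v : V} (huv : u ≠ v)
    (huA : u ∈ A) (huB : u ∈ B) (hvA : v ∈ A) (hvB : v ∈ B) : NoCut G (A ∪ B) := by
  refine ⟨SimpleGraph.induce_union_connected hA.1.preconnected hB.1.preconnected ⟨u, huA, huB⟩, ?_⟩
  intro x _
  have hpre : ∀ {C : Set V}, NoCut G C → (G.induce (C \ {x})).Preconnected := by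
    intro C hC
    by_cases hx : x ∈ C
    · exact hC.2 x hx
    · rw [Set.sdiff_singleton_eq_self hx]
      exact hC.1.preconnected
  rw [Set.union_sdiff_distrib]
  obtain ⟨w, hwx, hwA, hwB⟩ : ∃ w, w ≠ x ∧ w ∈ A ∧ w ∈ B := by
    by_cases hux : u = x
    · exact ⟨v, fun h => huv (hux.trans h.symm), hvA, hvB⟩
    · exact ⟨u, hux, huA, huB⟩
  exact (SimpleGraph.induce_union_connected (hpre hA) (hpre hB)
    ⟨w, ⟨hwA, hwx⟩, ⟨hwB, hwx⟩⟩).preconnected

lemma walk_reach {S : Set V} (g : ℕ → V) (a b : ℕ) (hg : ∀ j, a ≤ j → j ≤ b → g j ∈ S)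
    (hadj : ∀ j, a ≤ j → j < b → G.Adj (g j) (g (j + 1))) :
    ∀ j (haj : a ≤ j) (hjb : j ≤ b),
      (G.induce S).Reachable ⟨g a, hg a le_rfl (haj.trans hjb)⟩ ⟨g j, hg j haj hjb⟩ := by
  intro j haj
  induction j, haj using Nat.le_induction with
  | base => intro _; exact SimpleGraph.Reachable.refl _
  | succ j haj ih =>
    intro hjb
    refine (ih (by omega)).trans (SimpleGraph.Adj.reachable ?_)
    exact hadj j haj (by omega)

open Fin.CommRing in
lemma noCut_range {k : ℕ} (hk : 3 ≤ k) (f : SimpleGraph.cycleGraph k →g G)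
    (hf : Function.Injective f) : NoCut G (Set.range f) := by
  obtain ⟨n, rfl⟩ : ∃ n, k = n + 2 := ⟨k - 2, by omega⟩
  -- parametrisations
  have hpar : ∀ i0 : Fin (n + 2), ∀ j : ℕ,
      G.Adj (f (i0 + (j : Fin (n + 2)))) (f (i0 + ((j + 1 : ℕ) : Fin (n + 2)))) := by
    intro i0 j
    apply f.map_adj
    rw [SimpleGraph.cycleGraph_adj]
    right
    push_cast
    rw [← add_assoc, add_sub_cancel_left]
  have hall : ∀ i0 x : Fin (n + 2), x = i0 + (((x - i0).val : ℕ) : Fin (n + 2)) := by
    intro i0 x
    rw [Fin.cast_val_eq_self]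
    ring
  have hpre : ∀ (i0 : Fin (n + 2)) (a b : ℕ) (S : Set V),
      (∀ j, a ≤ j → j ≤ b → f (i0 + (j : Fin (n + 2))) ∈ S) →
      (∀ y ∈ S, ∃ j, a ≤ j ∧ j ≤ b ∧ f (i0 + (j : Fin (n + 2))) = y) →
      (G.induce S).Preconnected := by
    intro i0 a b S h1 h2 x y
    obtain ⟨j, hj1, hj2, hj3⟩ := h2 x x.2
    obtain ⟨j', hj1', hj2', hj3'⟩ := h2 y y.2
    have e1 := walk_reach (G := G) (S := S) (fun j => f (i0 + (j : Fin (n + 2)))) a b h1
      (fun j _ _ => hpar i0 j) j hj1 hj2
    have e2 := walk_reach (G := G) (S := S) (fun j => f (i0 + (j : Fin (n + 2)))) a b h1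
      (fun j _ _ => hpar i0 j) j' hj1' hj2'
    have e3 : (⟨f (i0 + (j : Fin (n + 2))), h1 j hj1 hj2⟩ : S) = x := Subtype.ext hj3
    have e4 : (⟨f (i0 + (j' : Fin (n + 2))), h1 j' hj1' hj2'⟩ : S) = y := Subtype.ext hj3'
    simp only [e3] at e1
    simp only [e4] at e2
    exact e1.symm.trans e2
  refine ⟨?_, ?_⟩
  · have : Nonempty (Set.range f) := ⟨⟨f 0, 0, rfl⟩⟩
    refine ⟨hpre 0 0 (n + 1) _ (fun j _ _ => ⟨_, rfl⟩) ?_⟩
    rintro y ⟨x, rfl⟩
    refine ⟨(x - 0).val, by omega, by have := (x - 0).isLt; omega, ?_⟩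
    rw [← hall 0 x]
  · rintro z ⟨i0, rfl⟩
    refine hpre i0 1 (n + 1) _ ?_ ?_
    · intro j hj1 hj2
      refine ⟨⟨_, rfl⟩, ?_⟩
      intro h
      rw [Set.mem_singleton_iff] at h
      have h1 := hf h
      have h2 : (j : Fin (n + 2)) = 0 := by
        have := congrArg (fun z => z - i0) h1
        simpa using this
      have h3 : ((j : Fin (n + 2)) : ℕ) = j := by
        rw [Fin.val_natCast, Nat.mod_eq_of_lt (by omega)]
      rw [h2] at h3
      simp at h3
      omega
    · rintro y ⟨⟨x, rfl⟩, hx⟩
      have hxi : x ≠ i0 := by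
        rintro rfl
        exact hx rfl
      refine ⟨(x - i0).val, ?_, by have := (x - i0).isLt; omega, ?_⟩
      · rw [Nat.one_le_iff_ne_zero]
        intro h
        apply hxi
        have : x - i0 = 0 := Fin.ext (by simpa using h)
        exact sub_eq_zero.mp this
      · rw [← hall i0 x]

/-- an edge of a connected graph which leaves a given set -/
lemma crossing {α : Type*} {H : SimpleGraph α} (hH : H.Preconnected) (X : Set α) {x y : α}
    (hx : x ∈ X) (hy : y ∉ X) : ∃ a b, a ∈ X ∧ b ∉ X ∧ H.Adj a b := by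
  obtain ⟨p⟩ := hH x y
  obtain ⟨d, _, h1, h2⟩ := p.exists_boundary_dart X hx hy
  exact ⟨d.fst, d.snd, h1, h2, d.adj⟩


lemma ear {B : Set V} (hB : NoCut G B) {C : Finset V} (hC : G.IsClique (C : Set V))
    (hCB : (C : Set V) ⊆ B) (h2 : 2 ≤ C.card) (hne : ∃ w ∈ B, w ∉ C) :
    ∃ L : List V, L.Nodup ∧ L.IsChain G.Adj ∧ (∀ x ∈ L.getLast?, ∀ y ∈ L.head?, G.Adj x y) ∧
      (∀ x ∈ C, x ∈ L) ∧ C.card + 1 ≤ L.length := by
  obtain ⟨w, hwB, hwC⟩ := hne
  obtain ⟨c0, hc0⟩ : C.Nonempty := Finset.card_pos.mp (by omega)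
  obtain ⟨⟨c, hcB⟩, ⟨x, hxB⟩, hcC, hxC, hcx⟩ := crossing hB.1.preconnected
    (X := {y : B | y.val ∈ C}) (x := ⟨c0, hCB (by exact_mod_cast hc0)⟩) (y := ⟨w, hwB⟩) hc0 hwC
  change c ∈ C at hcC
  change ¬ x ∈ C at hxC
  have hcx' : G.Adj c x := hcx
  obtain ⟨c1, hc1, hc1c⟩ := Finset.exists_mem_ne (by omega : 1 < C.card) c
  have hxc : x ≠ c := fun h => hxC (h ▸ hcC)
  set D : Set V := {v | v ∈ B ∧ v ∉ C} with hD
  have hxD : x ∈ D := ⟨hxB, hxC⟩
  obtain ⟨⟨y, hyB, hyc⟩, ⟨z, hzB, hzc⟩, hyX, hzX, hyz⟩ := crossing (hB.2 c hcB)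
    (X := {v : (B \ {c} : Set V) | ∃ h : v.val ∈ D, (G.induce D).Reachable ⟨x, hxD⟩ ⟨v.val, h⟩})
    (x := ⟨x, hxB, hxc⟩) (y := ⟨c1, hCB (by exact_mod_cast hc1), hc1c⟩)
    ⟨hxD, SimpleGraph.Reachable.refl _⟩ (by
      rintro ⟨h, _⟩
      exact h.2 hc1)
  obtain ⟨hyD, hreach⟩ := hyX
  have hyz' : G.Adj y z := hyz
  have hzC : z ∈ C := by
    by_contra hz
    apply hzX
    have hzD : z ∈ D := ⟨hzB, hz⟩
    exact ⟨hzD, hreach.trans (SimpleGraph.Adj.reachable hyz')⟩
  have hzc' : z ≠ c := fun h => hzc (by rw [h]; rfl)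
  obtain ⟨p⟩ := hreach
  obtain ⟨q, hq⟩ := p.toPath
  -- the list of the path
  set P : List V := q.support.map Subtype.val with hP
  have hPnd : P.Nodup := hq.support_nodup.map Subtype.val_injective
  have hPch : P.IsChain G.Adj := by
    rw [hP, List.isChain_map]
    exact q.isChain_adj_support.imp fun a b h => h
  have hPhead : P.head? = some x := by
    rw [hP, List.head?_map, List.head?_eq_some_head q.support_ne_nil, q.head_support]
    rfl
  have hPlast : P.getLast? = some y := by
    rw [hP, List.getLast?_map, List.getLast?_eq_getLast_of_ne_nil q.support_ne_nil, q.getLast_support]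
    rfl
  have hPD : ∀ v ∈ P, v ∈ D := by
    intro v hv
    rw [hP, List.mem_map] at hv
    obtain ⟨v', _, rfl⟩ := hv
    exact v'.2
  have hPlen : 1 ≤ P.length := by
    rw [hP, List.length_map]
    exact List.length_pos_iff.mpr q.support_ne_nil
  set E : Finset V := (C.erase c).erase z with hE
  have hEC : E ⊆ C := (Finset.erase_subset _ _).trans (Finset.erase_subset _ _)
  have hEcl : G.IsClique (E : Set V) := hC.subset (by exact_mod_cast hEC)
  have hEc : E.card + 2 = C.card := by
    have hz1 : z ∈ C.erase c := mem_erase.mpr ⟨hzc', hzC⟩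
    have e1 := Finset.card_erase_add_one hz1
    have e2 := Finset.card_erase_add_one hcC
    rw [← hE] at e1
    omega
  have hmemE : ∀ v ∈ z :: E.toList, v ∈ C ∧ v ≠ c := by
    intro v hv
    rcases List.mem_cons.mp hv with rfl | hv
    · exact ⟨hzC, hzc'⟩
    · rw [mem_toList, hE, mem_erase, mem_erase] at hv
      exact ⟨hv.2.2, hv.2.1⟩
  have hzE : (z :: E.toList).IsChain G.Adj := by
    refine (clique_chain hEcl).2.1.cons ?_
    intro v hv
    have hv' : v ∈ E := by simpa using List.mem_of_mem_head? hv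
    refine hC (by exact_mod_cast hzC) (by exact_mod_cast hEC hv') ?_
    rintro rfl
    simp [hE] at hv'
  refine ⟨c :: (P ++ z :: E.toList), ?_, ?_, ?_, ?_, ?_⟩
  · rw [List.nodup_cons]
    refine ⟨?_, ?_⟩
    · rw [List.mem_append, not_or]
      exact ⟨fun h => (hPD c h).2 hcC, fun h => (hmemE c h).2 rfl⟩
    · refine List.Nodup.append hPnd ?_ ?_
      · rw [List.nodup_cons]
        exact ⟨by simp [hE], E.nodup_toList⟩
      · intro v hv1 hv2
        exact (hPD v hv1).2 (hmemE v hv2).1
  · refine List.IsChain.cons ?_ ?_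
    · refine hPch.append hzE ?_
      intro v hv u hu
      rw [hPlast] at hv
      cases hv
      cases hu
      exact hyz'
    · intro v hv
      rw [List.head?_append_of_ne_nil _ (List.length_pos_iff.mp hPlen), hPhead] at hv
      cases hv
      exact hcx'
  · intro v hv u hu
    cases hu
    rw [List.getLast?_cons_of_ne_nil (by simp), List.getLast?_append_of_ne_nil _ (by simp)] at hv
    have := hmemE v (List.mem_of_getLast? hv)
    exact hC (by exact_mod_cast this.1) (by exact_mod_cast hcC) this.2
  · intro v hv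
    by_cases h1 : v = c
    · rw [h1]; simp
    · refine List.mem_cons_of_mem _ (List.mem_append_right _ ?_)
      by_cases h2 : v = z
      · rw [h2]; simp
      · refine List.mem_cons_of_mem _ ?_
        rw [mem_toList, hE, mem_erase, mem_erase]
        exact ⟨h2, h1, hv⟩
  · simp only [List.length_cons, List.length_append, length_toList]
    omega

end blocks


section main

variable {V : Type*} [Fintype V] [DecidableEq V] {G : SimpleGraph V} [DecidableRel G.Adj]

variable (G) in
/-- `t (t - 1)` times half the weight of `T`, divided by `t` -/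
noncomputable def q (t : ℕ) (T : Finset V) : ℝ :=
  ((t - 1 : ℕ) : ℝ) / ((circ G T - 2).choose (t - 2) : ℕ)

lemma weight_eq {t γ : ℕ} (ht : 3 ≤ t) (hγ : t ≤ γ) :
    ((γ.choose 2 : ℕ) : ℝ) / (γ.choose t : ℕ)
      = (t : ℝ) / 2 * (((t - 1 : ℕ) : ℝ) / ((γ - 2).choose (t - 2) : ℕ)) := by
  have h1 := Nat.choose_mul (n := γ) (show 2 ≤ t by omega)
  have h2 : (0 : ℝ) < (γ.choose t : ℕ) := by exact_mod_cast Nat.choose_pos hγ
  have h3 : (0 : ℝ) < ((γ - 2).choose (t - 2) : ℕ) := by
    exact_mod_cast Nat.choose_pos (by omega)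
  have h4 : ((γ.choose t : ℕ) : ℝ) * ((t : ℝ) * (t - 1) / 2)
      = (γ.choose 2 : ℕ) * ((γ - 2).choose (t - 2) : ℕ) := by
    rw [← Nat.cast_choose_two]
    exact_mod_cast h1
  rw [Nat.cast_sub (by omega), Nat.cast_one]
  field_simp
  linarith

lemma card_of_mem {t : ℕ} {T : Finset V} (hT : T ∈ G.cliqueFinset t) :
    T.card = t ∧ G.IsClique (T : Set V) := by
  rw [SimpleGraph.mem_cliqueFinset_iff] at hT
  exact ⟨hT.card_eq, hT.isClique⟩

lemma le_circ {t : ℕ} (ht : 3 ≤ t) {T : Finset V} (hT : T ∈ G.cliqueFinset t) :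
    t ≤ circ G T := by
  obtain ⟨h1, h2⟩ := card_of_mem hT
  have := clique_le_circ h2 (Finset.Subset.refl T) (by omega)
  omega

lemma erase_mem_cls {t : ℕ} {T : Finset V} (hT : T ∈ G.cliqueFinset t) {v : V} (hv : v ∈ T) :
    T.erase v ∈ cls G (t - 1) (G.neighborFinset v) := by
  obtain ⟨h1, h2⟩ := card_of_mem hT
  rw [mem_cls]
  refine ⟨?_, by rw [Finset.card_erase_of_mem hv, h1],
    h2.subset (by exact_mod_cast Finset.erase_subset v T)⟩
  intro x hx
  obtain ⟨hx1, hx2⟩ := mem_erase.mp hx
  rw [SimpleGraph.mem_neighborFinset]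
  exact h2 (by exact_mod_cast hv) (by exact_mod_cast hx2) (Ne.symm hx1)

lemma pth_lt_circ {t : ℕ} (ht : 3 ≤ t) {T : Finset V} (hT : T ∈ G.cliqueFinset t) {v : V}
    (hv : v ∈ T) : t - 1 ≤ pth G (G.neighborFinset v) (T.erase v) ∧
      pth G (G.neighborFinset v) (T.erase v) + 1 ≤ circ G T := by
  obtain ⟨h1, h2⟩ := card_of_mem hT
  obtain ⟨h3, h4, h5⟩ := mem_cls.mp (erase_mem_cls hT hv)
  have h6 := card_le_pth h5 h3
  refine ⟨by omega, ?_⟩
  obtain ⟨L, hL, hSL, hk⟩ := pth_spec ((clique_chain h5).mono h3) (S := T.erase v)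
    (fun x hx => by simpa using hx)
  rw [← hk]
  have hne : L ≠ [] := by
    rintro rfl
    simp at hk
    omega
  have hadj : ∀ x ∈ L, G.Adj v x := fun x hx => by
    have := hL.2.2 x hx
    rwa [SimpleGraph.mem_neighborFinset] at this
  have h7 := le_circ_of_list (G := G) (T := T) (L := v :: L) ?_ ?_ ?_ ?_ ?_
  · simpa using h7
  · rw [List.nodup_cons]
    exact ⟨fun h => G.irrefl (hadj v h), hL.1⟩
  · exact hL.2.1.cons fun y hy => hadj y (List.mem_of_mem_head? hy)
  · rw [List.length_cons, hk]; omega
  · intro x hx y hy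
    cases hy
    rw [List.getLast?_cons_of_ne_nil hne] at hx
    exact (hadj x (List.mem_of_getLast? hx)).symm
  · intro x hx
    by_cases hxv : x = v
    · rw [hxv]; simp
    · exact List.mem_cons_of_mem _ (hSL x (mem_erase.mpr ⟨hxv, hx⟩))

lemma q_le_wt {t : ℕ} (ht : 3 ≤ t) {T : Finset V} (hT : T ∈ G.cliqueFinset t) {v : V}
    (hv : v ∈ T) : q G t T ≤ wt G (t - 1) (G.neighborFinset v) (T.erase v) := by
  obtain ⟨h1, h2⟩ := pth_lt_circ ht hT hv
  unfold q wt
  rw [show t - 1 - 1 = t - 2 by omega]
  have h3 : 0 < (pth G (G.neighborFinset v) (T.erase v) - 1).choose (t - 2) :=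
    Nat.choose_pos (by omega)
  refine div_le_div_of_nonneg_left (by positivity) (by exact_mod_cast h3) ?_
  exact_mod_cast Nat.choose_le_choose _ (by omega)

lemma swap_sum {t : ℕ} (ht : 3 ≤ t) (F : V → Finset V → ℝ) :
    ∑ T ∈ G.cliqueFinset t, ∑ v ∈ T, F v (T.erase v)
      = ∑ v : V, ∑ S ∈ cls G (t - 1) (G.neighborFinset v), F v S := by
  rw [Finset.sum_sigma', Finset.sum_sigma']
  refine Finset.sum_bij' (fun p _ => ⟨p.2, p.1.erase p.2⟩) (fun p _ => ⟨insert p.1 p.2, p.1⟩)
    ?_ ?_ ?_ ?_ ?_
  · rintro ⟨T, v⟩ h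
    rw [mem_sigma] at h ⊢
    exact ⟨mem_univ _, erase_mem_cls h.1 h.2⟩
  · rintro ⟨v, S⟩ h
    rw [mem_sigma] at h ⊢
    obtain ⟨h1, h2, h3⟩ := mem_cls.mp h.2
    simp only at h1 h2 h3 ⊢
    have hvS : v ∉ S := fun hvS => by
      have := h1 hvS
      rw [SimpleGraph.mem_neighborFinset] at this
      exact G.irrefl this
    refine ⟨?_, mem_insert_self _ _⟩
    rw [SimpleGraph.mem_cliqueFinset_iff]
    refine ⟨?_, ?_⟩
    · rw [Finset.coe_insert]
      refine h3.insert fun b hb _ => ?_
      have := h1 (by exact_mod_cast hb)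
      rwa [SimpleGraph.mem_neighborFinset] at this
    · rw [Finset.card_insert_of_notMem hvS, h2]
      omega
  · rintro ⟨T, v⟩ h
    rw [mem_sigma] at h
    simp only
    rw [Finset.insert_erase h.2]
  · rintro ⟨v, S⟩ h
    rw [mem_sigma] at h
    obtain ⟨h1, h2, h3⟩ := mem_cls.mp h.2
    simp only at h1 h2 h3 ⊢
    have hvS : v ∉ S := fun hvS => by
      have := h1 hvS
      rw [SimpleGraph.mem_neighborFinset] at this
      exact G.irrefl this
    rw [Finset.erase_insert hvS]
  · rintro ⟨T, v⟩ h
    rfl

lemma sum_weight_eq {t : ℕ} (ht : 3 ≤ t) :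
    ∑ T ∈ G.cliqueFinset t, (((circ G T).choose 2 : ℕ) : ℝ) / ((circ G T).choose t : ℕ)
      = 1 / 2 * ∑ T ∈ G.cliqueFinset t, ∑ _v ∈ T, q G t T := by
  rw [Finset.mul_sum]
  refine Finset.sum_congr rfl fun T hT => ?_
  rw [weight_eq ht (le_circ ht hT), Finset.sum_const, (card_of_mem hT).1, nsmul_eq_mul, q]
  ring

lemma sum_deg : ∑ v : V, ((G.neighborFinset v).card : ℝ) = 2 * G.edgeFinset.card := by
  have := G.sum_degrees_eq_twice_card_edges
  simp only [← SimpleGraph.card_neighborFinset_eq_degree] at this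
  exact_mod_cast this

lemma AB {t : ℕ} (ht : 3 ≤ t) : ∑ T ∈ G.cliqueFinset t, ∑ _v ∈ T, q G t T
    ≤ ∑ T ∈ G.cliqueFinset t, ∑ v ∈ T, wt G (t - 1) (G.neighborFinset v) (T.erase v) :=
  Finset.sum_le_sum fun T hT => Finset.sum_le_sum fun v hv => q_le_wt ht hT hv

lemma BC {t : ℕ} (ht : 3 ≤ t) :
    ∑ T ∈ G.cliqueFinset t, ∑ v ∈ T, wt G (t - 1) (G.neighborFinset v) (T.erase v)
      ≤ 2 * G.edgeFinset.card := by
  rw [swap_sum ht fun v S => wt G (t - 1) (G.neighborFinset v) S, ← sum_deg]
  exact Finset.sum_le_sum fun v _ => (path_bound (by omega) _ (G.neighborFinset v) rfl).1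

theorem bound {t : ℕ} (ht : 3 ≤ t) :
    ∑ T ∈ G.cliqueFinset t, (((circ G T).choose 2 : ℕ) : ℝ) / ((circ G T).choose t : ℕ)
      ≤ G.edgeFinset.card := by
  rw [sum_weight_eq ht]
  have := AB (G := G) ht
  have := BC (G := G) ht
  linarith

theorem blocks_of_eq {t : ℕ} (ht : 3 ≤ t)
    (heq : ∑ T ∈ G.cliqueFinset t, (((circ G T).choose 2 : ℕ) : ℝ) / ((circ G T).choose t : ℕ)
      = G.edgeFinset.card) (B : Set V) (hB : IsBlock G B) :
    B.ncard = 1 ∨ (G.IsClique B ∧ t ≤ B.ncard) := by
  rw [sum_weight_eq ht] at heq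
  have hAB := AB (G := G) ht
  have hBC := BC (G := G) ht
  have e1 : ∑ T ∈ G.cliqueFinset t, ∑ _v ∈ T, q G t T
      = ∑ T ∈ G.cliqueFinset t, ∑ v ∈ T, wt G (t - 1) (G.neighborFinset v) (T.erase v) := by
    linarith
  have e2 : ∑ T ∈ G.cliqueFinset t, ∑ v ∈ T, wt G (t - 1) (G.neighborFinset v) (T.erase v)
      = 2 * G.edgeFinset.card := by linarith
  have e3 : ∀ T ∈ G.cliqueFinset t, ∀ v ∈ T,
      q G t T = wt G (t - 1) (G.neighborFinset v) (T.erase v) := by
    intro T hT
    have h1 := (Finset.sum_eq_sum_iff_of_le fun T hT =>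
      Finset.sum_le_sum fun v hv => q_le_wt ht hT hv).mp e1 T hT
    exact (Finset.sum_eq_sum_iff_of_le fun v hv => q_le_wt ht hT hv).mp h1
  have e4 : ∀ v : V, ∑ S ∈ cls G (t - 1) (G.neighborFinset v),
      wt G (t - 1) (G.neighborFinset v) S = (G.neighborFinset v).card := by
    rw [swap_sum ht fun v S => wt G (t - 1) (G.neighborFinset v) S, ← sum_deg] at e2
    intro v
    exact (Finset.sum_eq_sum_iff_of_le fun v _ =>
      (path_bound (by omega) _ (G.neighborFinset v) rfl).1).mp e2 v (mem_univ v)
  have e5 := fun v : V => (path_bound (G := G) (s := t - 1) (by omega) _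
    (G.neighborFinset v) rfl).2 (e4 v)
  by_cases h1 : B.ncard = 1
  · exact Or.inl h1
  right
  have hBnc : NoCut G B := hB.prop
  have hBne : B.Nonempty := by
    obtain ⟨⟨x, hx⟩⟩ := hBnc.1.nonempty
    exact ⟨x, hx⟩
  have hB2 : 1 < B.ncard := by
    have := (Set.ncard_pos B.toFinite).mpr hBne
    omega
  obtain ⟨v, hv⟩ := hBne
  obtain ⟨v', hv', hvv'⟩ := Set.exists_ne_of_one_lt_ncard hB2 v
  obtain ⟨⟨a, haB⟩, ⟨u, huB⟩, ha, hu, hau⟩ := crossing hBnc.1.preconnected
    (X := {y : B | y.val = v}) (x := ⟨v, hv⟩) (y := ⟨v', hv'⟩) rfl hvv'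
  have hav : a = v := ha
  subst hav
  have hau' : G.Adj a u := hau
  have huN : u ∈ G.neighborFinset a := by
    rw [SimpleGraph.mem_neighborFinset]; exact hau'
  -- the clique
  set K := nb G (G.neighborFinset a) u with hK
  obtain ⟨hKcl, hKs⟩ := e5 a u huN
  rw [← hK] at hKs hKcl
  have hQ : ∀ x ∈ G.neighborFinset a, G.IsClique (nb G (G.neighborFinset a) x : Set V) :=
    fun x hx => (e5 a x hx).1
  have hKN : K ⊆ G.neighborFinset a := fun x hx => (mem_nb.mp hx).1
  have haK : a ∉ K := fun h => by
    have := hKN h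
    rw [SimpleGraph.mem_neighborFinset] at this
    exact G.irrefl this
  have huK : u ∈ K := mem_nb.mpr ⟨huN, Or.inl rfl⟩
  set Cq : Finset V := insert a K with hCq
  have hCcl : G.IsClique (Cq : Set V) := by
    rw [hCq, Finset.coe_insert]
    refine hKcl.insert fun b hb _ => ?_
    have := hKN (by exact_mod_cast hb)
    rwa [SimpleGraph.mem_neighborFinset] at this
  have hCc : Cq.card = K.card + 1 := Finset.card_insert_of_notMem haK
  have haC : a ∈ Cq := mem_insert_self _ _
  have huC : u ∈ Cq := mem_insert_of_mem huK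
  have hCsub : (Cq : Set V) ⊆ B := by
    have hun : NoCut G ((Cq : Set V) ∪ B) :=
      noCut_union (noCut_of_clique hCcl ⟨a, by exact_mod_cast haC⟩) hBnc hau'.ne
        (by exact_mod_cast haC) haB (by exact_mod_cast huC) huB
    have := hB.le_of_ge hun Set.subset_union_right
    exact Set.subset_union_left.trans this
  have hBC' : B ⊆ (Cq : Set V) := by
    by_contra hcon
    rw [Set.not_subset] at hcon
    obtain ⟨w, hwB, hwC⟩ := hcon
    obtain ⟨L, hL1, hL2, hL3, hL4, hL5⟩ := ear hBnc hCcl hCsub (by omega)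
      ⟨w, hwB, by exact_mod_cast hwC⟩
    obtain ⟨T, hT1, hT2, hT3⟩ := Finset.exists_subsuperset_card_eq (n := t)
      (Finset.singleton_subset_iff.mpr haC) (by rw [Finset.card_singleton]; omega) (by omega)
    have haT : a ∈ T := hT1 (mem_singleton_self a)
    have hTm : T ∈ G.cliqueFinset t := by
      rw [SimpleGraph.mem_cliqueFinset_iff]
      exact ⟨hCcl.subset (by exact_mod_cast hT2), hT3⟩
    have hcirc : Cq.card + 1 ≤ circ G T :=
      hL5.trans (le_circ_of_list hL1 hL2 (by omega) hL3 fun x hx => hL4 x (hT2 hx))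
    have hw := e3 T hTm a haT
    obtain ⟨hp1, hp2⟩ := pth_lt_circ ht hTm haT
    -- the path number is at most the size of K
    have hp3 : pth G (G.neighborFinset a) (T.erase a) ≤ K.card := by
      obtain ⟨h3, h4, h5⟩ := mem_cls.mp (erase_mem_cls hTm haT)
      obtain ⟨L', hL', hSL', hk'⟩ := pth_spec ((clique_chain h5).mono h3) (S := T.erase a)
        (fun x hx => by simpa using hx)
      rw [← hk', ← List.toFinset_card_of_nodup hL'.1]
      refine Finset.card_le_card fun x hx => ?_
      obtain ⟨z, hz⟩ : (T.erase a).Nonempty := Finset.card_pos.mp (by omega)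
      have hzK : z ∈ K := by
        obtain ⟨hz1, hz2⟩ := mem_erase.mp hz
        rcases mem_insert.mp (hT2 hz2) with h | h
        · exact absurd h hz1
        · exact h
      exact chain_closed (p := fun x => x ∈ K) (fun y hy hyv z hz hyz =>
        nb_closed hQ huN y hy hyv z hz hyz) hL' (hSL' z hz) hzK x (List.mem_toFinset.mp hx)
    unfold q wt at hw
    rw [show t - 1 - 1 = t - 2 by omega] at hw
    set π := pth G (G.neighborFinset a) (T.erase a) with hπ
    have hc1 : 0 < (π - 1).choose (t - 2) := Nat.choose_pos (by omega)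
    have hc2 : (π - 1).choose (t - 2) < (circ G T - 2).choose (t - 2) := by
      have h1 := choose_lt (a := π) (s := t - 1) (by omega) hp1
      rw [show t - 1 - 1 = t - 2 by omega] at h1
      exact lt_of_lt_of_le h1 (Nat.choose_le_choose _ (by omega))
    have hc1' : (0 : ℝ) < ((π - 1).choose (t - 2) : ℕ) := by exact_mod_cast hc1
    have hc2' : (((π - 1).choose (t - 2) : ℕ) : ℝ) < ((circ G T - 2).choose (t - 2) : ℕ) := by
      exact_mod_cast hc2
    have ht1 : (0 : ℝ) < ((t - 1 : ℕ) : ℝ) := by
      have : 0 < t - 1 := by omega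
      exact_mod_cast this
    have := div_lt_div_of_pos_left ht1 hc1' hc2'
    linarith
  have hBeq : B = (Cq : Set V) := Set.Subset.antisymm hBC' hCsub
  rw [hBeq, Set.ncard_coe_finset]
  exact ⟨hCcl, by omega⟩

theorem eq_of_blocks {t : ℕ} (ht : 3 ≤ t)
    (hblocks : ∀ B : Set V, IsBlock G B → B.ncard = 1 ∨ (G.IsClique B ∧ t ≤ B.ncard)) :
    ∑ T ∈ G.cliqueFinset t, (((circ G T).choose 2 : ℕ) : ℝ) / ((circ G T).choose t : ℕ)
      = G.edgeFinset.card := by
  classical
  have hinner : ∀ v : V, ∀ u ∈ G.neighborFinset v,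
      ∑ T ∈ (G.cliqueFinset t).filter (fun T => v ∈ T ∧ u ∈ T),
        (1 : ℝ) / ((circ G T - 2).choose (t - 2) : ℕ) = 1 := by
    intro v u hu
    rw [SimpleGraph.mem_neighborFinset] at hu
    have hpair : G.IsClique ({v, u} : Set V) := by
      rw [SimpleGraph.isClique_pair]
      exact fun _ => hu
    obtain ⟨B, hBle, hB⟩ := Finite.exists_le_maximal (noCut_of_clique hpair ⟨v, by simp⟩)
    have hvB : v ∈ B := hBle (by simp)
    have huB : u ∈ B := hBle (by simp)
    obtain ⟨hBcl, hBt⟩ : G.IsClique B ∧ t ≤ B.ncard := by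
      rcases hblocks B hB with h | h
      · exfalso
        obtain ⟨w, hw⟩ := Set.ncard_eq_one.mp h
        rw [hw, Set.mem_singleton_iff] at hvB huB
        exact hu.ne (hvB.trans huB.symm)
      · exact h
    set Bf : Finset V := B.toFinite.toFinset with hBf
    have hBfc : (Bf : Set V) = B := B.toFinite.coe_toFinset
    have hBfn : Bf.card = B.ncard := by rw [← hBfc, Set.ncard_coe_finset]
    have hvBf : v ∈ Bf := B.toFinite.mem_toFinset.mpr hvB
    have huBf : u ∈ Bf := B.toFinite.mem_toFinset.mpr huB
    have hTB : ∀ T ∈ (G.cliqueFinset t).filter (fun T => v ∈ T ∧ u ∈ T),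
        T ⊆ Bf ∧ circ G T = Bf.card := by
      intro T hT
      obtain ⟨hT1, hvT, huT⟩ := mem_filter.mp hT
      obtain ⟨hTc, hTcl⟩ := card_of_mem hT1
      have hsub : ∀ Z : Set V, NoCut G Z → v ∈ Z → u ∈ Z → Z ⊆ B := by
        intro Z hZ hvZ huZ
        have hun := noCut_union hZ hB.prop hu.ne hvZ hvB huZ huB
        exact Set.subset_union_left.trans (hB.le_of_ge hun Set.subset_union_right)
      have hTsub : T ⊆ Bf := by
        intro x hx
        have := hsub (T : Set V) (noCut_of_clique hTcl ⟨v, by exact_mod_cast hvT⟩)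
          (by exact_mod_cast hvT) (by exact_mod_cast huT) (by exact_mod_cast hx)
        exact B.toFinite.mem_toFinset.mpr this
      refine ⟨hTsub, le_antisymm ?_ ?_⟩
      · have h3 := (ht.trans (le_circ ht hT1))
        obtain ⟨f, hf, hfT⟩ := circ_spec h3
        have hrange : Set.range f ⊆ B := by
          obtain ⟨i, hi⟩ := hfT v hvT
          obtain ⟨j, hj⟩ := hfT u huT
          exact hsub _ (noCut_range h3 f hf) ⟨i, hi⟩ ⟨j, hj⟩
        have h4 : circ G T ≤ B.ncard := by
          calc circ G T = Nat.card (Fin (circ G T)) := by simp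
            _ = (Set.range f).ncard := by
              rw [← Nat.card_coe_set_eq]
              exact Nat.card_congr (Equiv.ofInjective f hf)
            _ ≤ B.ncard := Set.ncard_le_ncard hrange B.toFinite
        omega
      · exact clique_le_circ (by rw [hBfc]; exact hBcl) hTsub (by omega)
    have hcount : ((G.cliqueFinset t).filter (fun T => v ∈ T ∧ u ∈ T)).card
        = (Bf.card - 2).choose (t - 2) := by
      have hE : ((Bf.erase v).erase u).card = Bf.card - 2 := by
        rw [Finset.card_erase_of_mem (mem_erase.mpr ⟨hu.ne.symm, huBf⟩),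
          Finset.card_erase_of_mem hvBf]
        omega
      rw [← hE, ← Finset.card_powersetCard]
      refine Finset.card_bij' (fun T _ => (T.erase v).erase u) (fun S _ => insert v (insert u S))
        ?_ ?_ ?_ ?_
      · intro T hT
        obtain ⟨hT1, hvT, huT⟩ := mem_filter.mp hT
        obtain ⟨hTc, hTcl⟩ := card_of_mem hT1
        rw [mem_powersetCard]
        refine ⟨Finset.erase_subset_erase u (Finset.erase_subset_erase v (hTB T hT).1), ?_⟩
        rw [Finset.card_erase_of_mem (mem_erase.mpr ⟨hu.ne.symm, huT⟩),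
          Finset.card_erase_of_mem hvT, hTc]
        omega
      · intro S hS
        obtain ⟨hS1, hS2⟩ := mem_powersetCard.mp hS
        have huS : u ∉ S := fun h => by have := hS1 h; simp at this
        have hvS : v ∉ S := fun h => by have := hS1 h; simp at this
        have hSB : insert v (insert u S) ⊆ Bf := by
          refine Finset.insert_subset hvBf (Finset.insert_subset huBf ?_)
          exact hS1.trans ((Finset.erase_subset _ _).trans (Finset.erase_subset _ _))
        rw [mem_filter, SimpleGraph.mem_cliqueFinset_iff]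
        refine ⟨⟨?_, ?_⟩, by simp, by simp⟩
        · refine hBcl.subset ?_
          rw [← hBfc]
          exact_mod_cast hSB
        · rw [Finset.card_insert_of_notMem (by
            rw [mem_insert, not_or]; exact ⟨hu.ne, hvS⟩), Finset.card_insert_of_notMem huS, hS2]
          omega
      · intro T hT
        obtain ⟨hT1, hvT, huT⟩ := mem_filter.mp hT
        rw [Finset.insert_erase (mem_erase.mpr ⟨hu.ne.symm, huT⟩), Finset.insert_erase hvT]
      · intro S hS
        obtain ⟨hS1, hS2⟩ := mem_powersetCard.mp hS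
        have huS : u ∉ S := fun h => by have := hS1 h; simp at this
        have hvS : v ∉ S := fun h => by have := hS1 h; simp at this
        rw [Finset.erase_insert (by rw [mem_insert, not_or]; exact ⟨hu.ne, hvS⟩),
          Finset.erase_insert huS]
    have hval : ∀ T ∈ (G.cliqueFinset t).filter (fun T => v ∈ T ∧ u ∈ T),
        (1 : ℝ) / ((circ G T - 2).choose (t - 2) : ℕ)
          = 1 / ((Bf.card - 2).choose (t - 2) : ℕ) := by
      intro T hT
      rw [(hTB T hT).2]
    rw [Finset.sum_congr rfl hval, Finset.sum_const, hcount, nsmul_eq_mul]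
    have hpos : (0 : ℝ) < ((Bf.card - 2).choose (t - 2) : ℕ) := by
      exact_mod_cast Nat.choose_pos (by omega)
    field_simp
  rw [sum_weight_eq ht]
  have h1 : ∑ T ∈ G.cliqueFinset t, ∑ _v ∈ T, q G t T
      = ∑ T ∈ G.cliqueFinset t, ∑ v ∈ T, ∑ u ∈ T.erase v,
        (1 : ℝ) / ((circ G T - 2).choose (t - 2) : ℕ) := by
    refine Finset.sum_congr rfl fun T hT => Finset.sum_congr rfl fun v hv => ?_
    rw [Finset.sum_const, Finset.card_erase_of_mem hv, (card_of_mem hT).1, nsmul_eq_mul, q]
    ring
  have h2 : ∑ T ∈ G.cliqueFinset t, ∑ v ∈ T, ∑ u ∈ T.erase v,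
        (1 : ℝ) / ((circ G T - 2).choose (t - 2) : ℕ)
      = ∑ v : V, ∑ u ∈ G.neighborFinset v,
        ∑ T ∈ (G.cliqueFinset t).filter (fun T => v ∈ T ∧ u ∈ T),
          (1 : ℝ) / ((circ G T - 2).choose (t - 2) : ℕ) := by
    rw [Finset.sum_comm' (t' := (univ : Finset V))
      (s' := fun v => (G.cliqueFinset t).filter fun T => v ∈ T) (by
        intro T v
        simp only [mem_filter, mem_univ, and_true])]
    refine Finset.sum_congr rfl fun v _ => ?_
    rw [Finset.sum_comm' (t' := G.neighborFinset v)
      (s' := fun u => (G.cliqueFinset t).filter fun T => v ∈ T ∧ u ∈ T) (by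
        intro T u
        simp only [mem_filter, mem_erase, SimpleGraph.mem_neighborFinset]
        constructor
        · rintro ⟨⟨hT, hv⟩, huv, hu⟩
          exact ⟨⟨hT, hv, hu⟩, (card_of_mem hT).2 (by exact_mod_cast hv) (by exact_mod_cast hu)
            (Ne.symm huv)⟩
        · rintro ⟨⟨hT, hv, hu⟩, hvu⟩
          exact ⟨⟨hT, hv⟩, hvu.ne.symm, hu⟩)]
  rw [h1, h2, Finset.sum_congr rfl fun v _ => Finset.sum_congr rfl fun u hu => hinner v u hu]
  simp only [sum_const, nsmul_eq_mul, mul_one]
  rw [sum_deg]
  ring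

end main

/-- For every `t ≥ 3` and every finite graph `G` with `m` edges the sum of
`binom(γ(T), 2) / binom(γ(T), t)` over the cliques `T` with `t` vertices is at most `m`, and it is
equal to `m` if and only if every block of `G` is a single vertex or a complete graph on at least
`t` vertices. -/
theorem result (t : ℕ) (ht : 3 ≤ t) {V : Type*} [Fintype V] [DecidableEq V] (G : SimpleGraph V)
    [DecidableRel G.Adj] :
    (∑ T ∈ G.cliqueFinset t, (((circ G T).choose 2 : ℕ) : ℝ) / ((circ G T).choose t : ℕ)
      ≤ G.edgeFinset.card) ∧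
    (∑ T ∈ G.cliqueFinset t, (((circ G T).choose 2 : ℕ) : ℝ) / ((circ G T).choose t : ℕ)
      = G.edgeFinset.card ↔
        ∀ B : Set V, IsBlock G B → B.ncard = 1 ∨ (G.IsClique B ∧ t ≤ B.ncard)) :=
  ⟨bound ht, blocks_of_eq ht, eq_of_blocks ht⟩

end Pool.Agent.Results.MP_18736b_co.CircumferenceWeights
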